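import Mathlib
import Pool.Agent.Helper941.Dim.Defs
import Pool.Agent.Helper750.UC.Base

set_option autoImplicit false

/-!
Project KC (MP_0054e7_lc): unions of copies of a structure, isolated points.
`Pool.Agent.Helper941.Dim.Str` is `ℕ → ℕ → ℕ → Prop`: structures on `ℕ` with binary relations.
-/

namespace Pool.Agent.Y670.KC

open Pool.Agent.Helper941.Dim

/-- no point of `A` is isolated: every point is in some relation with some point -/
def NoIso (A : Str) : Prop := ∀ x, ∃ i y, A i x y ∨ A i y x

/-- every relation of `A` is finite -/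
def FinRel (A : Str) : Prop := ∀ i, {p : ℕ × ℕ | A i p.1 p.2}.Finite

/-- `A` together with `m` isolated points: the points `0, …, m-1` are isolated, and the point
`n + m` takes the place of the point `n` of `A`. -/
def addFin (m : ℕ) (A : Str) : Str := fun i x y => m ≤ x ∧ m ≤ y ∧ A i (x - m) (y - m)

/-- `A` together with infinitely many isolated points: the odd numbers are isolated, and the
point `2 n` takes the place of the point `n` of `A`. -/
def addInf (A : Str) : Str := fun i x y => x % 2 = 0 ∧ y % 2 = 0 ∧ A i (x / 2) (y / 2)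

/-- the union of `k` structures: the point `n * k + j` (where `j < k`) takes the place of the
point `n` of the structure `S j` -/
def Un (k : ℕ) (S : ℕ → Str) : Str := fun i x y => x % k = y % k ∧ S (x % k) i (x / k) (y / k)

/-- job FIN -/
def Stm_FIN : Prop := ∀ (A : Str) (m : ℕ), IsComp A → NoIso A → compDim (addFin m A) = compDim A

/-- job MOD -/
def Stm_MOD : Prop := ∀ A : Str, FinRel A → ∀ M : FirstOrder.Language.Theory.ModelType.{0, 0, 0} (Pool.Agent.Helper750.UC.ThN A),
  Countable M → ∃ e : M ≃ ℕ,
    (∃ m, ∀ i x y, FirstOrder.Language.Structure.RelMap (L := Pool.Agent.Helper750.UC.BinL)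
      (Pool.Agent.Helper750.UC.BinRel.r i) ![x, y] ↔ addFin m A i (e x) (e y)) ∨
    ∀ i x y, FirstOrder.Language.Structure.RelMap (L := Pool.Agent.Helper750.UC.BinL)
      (Pool.Agent.Helper750.UC.BinRel.r i) ![x, y] ↔ addInf A i (e x) (e y)

/-- job INF -/
def Stm_INF : Prop := ∀ A : Str, IsComp A → NoIso A → compDim (addInf A) = Cardinal.aleph0

end Pool.Agent.Y670.KC
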