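import Mathlib
import Pool.Agent.Y670.KC.Defs

set_option autoImplicit false

/-!
Project KC (MP_0054e7_lc), second round of jobs.
-/

namespace Pool.Agent.Y670.KC

open Pool.Agent.Helper941.Dim
open Pool.Agent.Helper750.UC (BinL binStr)

/-- `x` is an isolated point of `C` -/
def Isol (C : Str) (x : ℕ) : Prop := ∀ i y, ¬ C i x y ∧ ¬ C i y x

/-- no computable sequence of different points consists of isolated points of `C` -/
def ImmIso (C : Str) : Prop :=
  ∀ q : ℕ → ℕ, Computable q → Function.Injective q → ∃ n, ¬ Isol C (q n)

/-- `g` enumerates a simple set without repetitions -/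
structure SimpleEnum (g : ℕ → ℕ) : Prop where
  comp : Computable g
  inj : Function.Injective g
  coinf : (Set.range g)ᶜ.Infinite
  imm : ∀ q : ℕ → ℕ, Computable q → Function.Injective q → ∃ n, q n ∈ Set.range g

/-- `A` has late points: a computable increasing sequence of points such that the relations with
index less than `s` do not hold of the point number `s` -/
structure LatePts (A : Str) (e : ℕ → ℕ) : Prop where
  comp : Computable e
  mono : StrictMono e
  coinf : (Set.range e)ᶜ.Infinite
  late : ∀ s i y, A i (e s) y ∨ A i y (e s) → s ≤ i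

/-- job SIMPLE: Post's simple set -/
def Stm_SIMPLE : Prop := ∃ g, SimpleEnum g

/-- job COPY: a computable copy of `addInf A` with an immune set of isolated points -/
def Stm_COPY : Prop := ∀ (A : Str) (e g : ℕ → ℕ), IsComp A → NoIso A → LatePts A e →
  SimpleEnum g → ∃ C, IsCopy (addInf A) C ∧ ImmIso C

/-- job LOW -/
def Stm_LOW : Prop := ∀ A C : Str, IsComp A → NoIso A → IsCopy (addInf A) C → ImmIso C →
  Cardinal.aleph0 ≤ compDim (addInf A)

/-- job UPP -/
def Stm_UPP : Prop := ∀ A : Str, compDim A ≤ Cardinal.aleph0

/-- `f` is an elementary embedding of the structure `(M, R 0, R 1, ...)` into the structure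
`(N, R' 0, R' 1, ...)` -/
def ElemMap {M N : Type} (R : ℕ → M → M → Prop) (R' : ℕ → N → N → Prop) (f : M → N) : Prop :=
  ∀ (n : ℕ) (φ : BinL.Formula (Fin n)) (x : Fin n → M),
    @FirstOrder.Language.Formula.Realize BinL N (binStr R') (Fin n) φ (f ∘ x) ↔
      @FirstOrder.Language.Formula.Realize BinL M (binStr R) (Fin n) φ x

/-- job ELEM: the elementary embeddings of `A` into `A` with isolated points -/
def Stm_ELEM : Prop := ∀ A : Str, FinRel A →
  (∀ m : ℕ, ElemMap A (addFin m A) fun n => n + m) ∧ ElemMap A (addInf A) fun n => 2 * n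

end Pool.Agent.Y670.KC
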