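import Mathlib
import Pool.Agent.Y670.KC.Defs

set_option autoImplicit false

/-!
Unions of connected structures: isomorphisms.
-/

namespace Pool.Agent.Y670.KC

open Pool.Agent.Helper941 Pool.Agent.Helper941.Dim Pool.Agent.Helper941.Zeta

/-- `x` and `y` are equal or adjacent -/
def Lk (A : Str) (x y : ℕ) : Prop := x = y ∨ ∃ i, A i x y ∨ A i y x

/-- `x` and `y` are joined by a path of length at most `2 ^ n` -/
def Jn (A : Str) : ℕ → ℕ → ℕ → Prop
  | 0, x, y => Lk A x y
  | n + 1, x, y => ∃ z, Jn A n x z ∧ Jn A n z y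

/-- any two points are joined by a path of length at most `2 ^ n` -/
def Con (n : ℕ) (A : Str) : Prop := ∀ x y, Jn A n x y

theorem Lk.map {A B : Str} {f : ℕ → ℕ} (hf : ∀ i x y, A i x y → B i (f x) (f y)) {x y : ℕ}
    (h : Lk A x y) : Lk B (f x) (f y) := by
  rcases h with h | ⟨i, h | h⟩
  · exact Or.inl (by rw [h])
  · exact Or.inr ⟨i, Or.inl (hf _ _ _ h)⟩
  · exact Or.inr ⟨i, Or.inr (hf _ _ _ h)⟩

theorem Jn.map {A B : Str} {f : ℕ → ℕ} (hf : ∀ i x y, A i x y → B i (f x) (f y)) {n : ℕ} :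
    ∀ {x y : ℕ}, Jn A n x y → Jn B n (f x) (f y) := by
  induction n with
  | zero => exact fun h => Lk.map hf h
  | succ n ih => exact fun ⟨z, h1, h2⟩ => ⟨f z, ih h1, ih h2⟩

theorem Lk.symm {A : Str} {x y : ℕ} (h : Lk A x y) : Lk A y x := by
  rcases h with h | ⟨i, h | h⟩
  · exact Or.inl h.symm
  · exact Or.inr ⟨i, Or.inr h⟩
  · exact Or.inr ⟨i, Or.inl h⟩

theorem Jn.symm {A : Str} {n : ℕ} : ∀ {x y : ℕ}, Jn A n x y → Jn A n y x := by
  induction n with
  | zero => exact fun h => Lk.symm h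
  | succ n ih => exact fun ⟨z, h1, h2⟩ => ⟨z, ih h2, ih h1⟩

theorem Con.iso {A B : Str} {n : ℕ} (hA : Con n A) {f : ℕ ≃ ℕ} (hf : IsIso A B f) : Con n B := by
  intro x y
  have := (hA (f.symm x) (f.symm y)).map (f := f) (fun i x y h => (hf i x y).1 h)
  rwa [f.apply_symm_apply, f.apply_symm_apply] at this

theorem isIso_symm {A B : Str} {f : ℕ ≃ ℕ} (hf : IsIso A B f) : IsIso B A f.symm := by
  intro i x y
  rw [hf, f.apply_symm_apply, f.apply_symm_apply]

theorem isIso_trans {A B C : Str} {f g : ℕ ≃ ℕ} (hf : IsIso A B f) (hg : IsIso B C g) :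
    IsIso A C (f.trans g) := fun i x y => (hf i x y).trans (hg i _ _)

theorem md {k j : ℕ} (a : ℕ) (hj : j < k) : (a * k + j) % k = j := by
  rw [Nat.mul_comm, Nat.mul_add_mod, Nat.mod_eq_of_lt hj]

theorem dv {k j : ℕ} (a : ℕ) (hj : j < k) : (a * k + j) / k = a := by
  rw [Nat.mul_comm, Nat.mul_add_div (by omega), Nat.div_eq_of_lt hj, Nat.add_zero]

theorem dm (k x : ℕ) : x / k * k + x % k = x := Nat.div_add_mod' x k

theorem Lk.un {k : ℕ} {S : ℕ → Str} {x y : ℕ} (h : Lk (Un k S) x y) : x % k = y % k := by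
  rcases h with h | ⟨i, h | h⟩
  · rw [h]
  · exact h.1
  · exact h.1.symm

theorem Jn.un {k : ℕ} {S : ℕ → Str} {n : ℕ} : ∀ {x y : ℕ}, Jn (Un k S) n x y → x % k = y % k := by
  induction n with
  | zero => exact fun h => Lk.un h
  | succ n ih => exact fun ⟨z, h1, h2⟩ => (ih h1).trans (ih h2)

theorem un_iff {k j : ℕ} (hj : j < k) (S : ℕ → Str) (i a b : ℕ) :
    Un k S i (a * k + j) (b * k + j) ↔ S j i a b := by
  unfold Un
  rw [md a hj, md b hj, dv a hj, dv b hj]
  exact ⟨fun h => h.2, fun h => ⟨rfl, h⟩⟩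

theorem jn_un {k : ℕ} {S : ℕ → Str} {n : ℕ} (hS : ∀ j < k, Con n (S j)) {x y : ℕ} (hk : 0 < k)
    (h : x % k = y % k) : Jn (Un k S) n x y := by
  have hj : x % k < k := Nat.mod_lt _ hk
  have h1 := (hS _ hj (x / k) (y / k)).map (B := Un k S) (f := fun a => a * k + x % k)
    (fun i a b h => (un_iff hj S i a b).2 h)
  have h2 : y / k * k + x % k = y := by rw [h, dm]
  simp only [dm, h2] at h1
  exact h1

/-- an isomorphism of unions of connected structures permutes the parts -/
theorem exists_perm {k n : ℕ} (hk : 0 < k) {S S' : ℕ → Str} (hS : ∀ j < k, Con n (S j))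
    (hS' : ∀ j < k, Con n (S' j)) {f : ℕ ≃ ℕ} (hf : IsIso (Un k S) (Un k S') f) :
    ∃ p : ℕ → ℕ, (∀ x, f x % k = p (x % k)) ∧ ∀ i < k, ∀ j < k, p i = p j → i = j := by
  refine ⟨fun j => f j % k, fun x => ?_, fun i hi j hj h => ?_⟩
  · have h1 : Jn (Un k S) n x (x % k) := jn_un hS hk (Nat.mod_mod x k).symm
    exact (h1.map (fun i x y h => (hf i x y).1 h)).un
  · have h1 : Jn (Un k S') n (f i) (f j) := jn_un hS' hk h
    have h2 := (h1.map (f := f.symm) (B := Un k S) (fun i x y h => (isIso_symm hf i x y).1 h)).un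
    rwa [f.symm_apply_apply, f.symm_apply_apply, Nat.mod_eq_of_lt hi, Nat.mod_eq_of_lt hj] at h2

/-- the parts of an isomorphism of unions -/
theorem part_iso {k : ℕ} (hk : 0 < k) {S S' : ℕ → Str} {f : ℕ ≃ ℕ}
    (hf : IsIso (Un k S) (Un k S') f) {p : ℕ → ℕ} (hp : ∀ x, f x % k = p (x % k))
    (hinj : ∀ i < k, ∀ j < k, p i = p j → i = j) {j : ℕ} (hj : j < k) :
    ∃ g : ℕ ≃ ℕ, IsIso (S j) (S' (p j)) g ∧ ∀ a, g a = f (a * k + j) / k := by
  have hpj : p j < k := by
    have := hp j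
    rw [Nat.mod_eq_of_lt hj] at this
    rw [← this]
    exact Nat.mod_lt _ hk
  have e1 : ∀ a, f (a * k + j) % k = p j := fun a => by rw [hp, md a hj]
  have e2 : ∀ a, f (a * k + j) / k * k + p j = f (a * k + j) := fun a => by rw [← e1 a, dm]
  have hb : Function.Bijective fun a => f (a * k + j) / k := by
    constructor
    · intro a b h
      have h1 : f (a * k + j) = f (b * k + j) := by
        rw [← e2 a, ← e2 b]
        show f (a * k + j) / k * k + p j = f (b * k + j) / k * k + p j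
        rw [show f (a * k + j) / k = f (b * k + j) / k from h]
      have h2 := f.injective h1
      have h3 : a * k = b * k := by omega
      exact Nat.eq_of_mul_eq_mul_right hk h3
    · intro b
      obtain ⟨x, hx⟩ := f.surjective (b * k + p j)
      have h1 : f x % k = p j := by rw [hx, md b hpj]
      have h2 : x % k = j := hinj _ (Nat.mod_lt _ hk) _ hj (by rw [← hp, h1])
      refine ⟨x / k, ?_⟩
      show f (x / k * k + j) / k = b
      have h3 : x / k * k + j = x := by rw [← h2, dm]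
      rw [h3, hx, dv b hpj]
  refine ⟨Equiv.ofBijective _ hb, fun i a b => ?_, fun a => rfl⟩
  show S j i a b ↔ S' (p j) i (f (a * k + j) / k) (f (b * k + j) / k)
  rw [← un_iff hj S, hf, ← un_iff hpj S', e2, e2]

/-- assembling an isomorphism of unions from isomorphisms of the parts -/
theorem glue_iso {k : ℕ} (hk : 0 < k) {S S' : ℕ → Str} (p : ℕ → ℕ) (hp : ∀ j < k, p j < k)
    (hinj : ∀ i < k, ∀ j < k, p i = p j → i = j) (g : ℕ → (ℕ ≃ ℕ))
    (hg : ∀ j < k, IsIso (S j) (S' (p j)) (g j)) :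
    ∃ f : ℕ ≃ ℕ, IsIso (Un k S) (Un k S') f ∧
      ∀ x, f x = g (x % k) (x / k) * k + p (x % k) := by
  have hlt : ∀ x, x % k < k := fun x => Nat.mod_lt _ hk
  have hsurj : ∀ i < k, ∃ j < k, p j = i := by
    have h1 : Function.Injective fun j : Fin k => (⟨p j, hp j j.2⟩ : Fin k) := by
      intro i j h
      have := hinj i i.2 j j.2 (by simpa using congrArg Fin.val h)
      exact Fin.ext this
    have h2 := Finite.surjective_of_injective h1
    intro i hi
    obtain ⟨j, hj⟩ := h2 ⟨i, hi⟩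
    exact ⟨j, j.2, by simpa using congrArg Fin.val hj⟩
  set F : ℕ → ℕ := fun x => g (x % k) (x / k) * k + p (x % k) with hF
  have m1 : ∀ x, F x % k = p (x % k) := fun x => md _ (hp _ (hlt x))
  have d1 : ∀ x, F x / k = g (x % k) (x / k) := fun x => dv _ (hp _ (hlt x))
  have hb : Function.Bijective F := by
    constructor
    · intro x y h
      have h1 : x % k = y % k := hinj _ (hlt x) _ (hlt y) (by rw [← m1, ← m1, h])
      have h2 : g (x % k) (x / k) = g (y % k) (y / k) := by rw [← d1, ← d1, h]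
      rw [← h1] at h2
      have h3 := (g (x % k)).injective h2
      rw [← dm k x, ← dm k y, h1, h3]
    · intro y
      obtain ⟨j, hj, h⟩ := hsurj (y % k) (hlt y)
      refine ⟨(g j).symm (y / k) * k + j, ?_⟩
      show g (((g j).symm (y / k) * k + j) % k) (((g j).symm (y / k) * k + j) / k) * k +
        p (((g j).symm (y / k) * k + j) % k) = y
      rw [md _ hj, dv _ hj, (g j).apply_symm_apply, h, dm]
  refine ⟨Equiv.ofBijective F hb, fun i x y => ?_, fun x => rfl⟩
  show _ ↔ (F x % k = F y % k ∧ S' (F x % k) i (F x / k) (F y / k))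
  rw [m1, m1, d1, d1]
  constructor
  · rintro ⟨h1, h2⟩
    refine ⟨by rw [h1], ?_⟩
    rw [← h1]
    exact (hg _ (hlt x) _ _ _).1 h2
  · rintro ⟨h1, h2⟩
    have h3 : x % k = y % k := hinj _ (hlt x) _ (hlt y) h1
    rw [← h3] at h2
    exact ⟨h3, (hg _ (hlt x) _ _ _).2 h2⟩

/-- finitely many computable functions -/
theorem fin_case (g : ℕ → ℕ → ℕ) (k : ℕ) (hg : ∀ j < k, Computable (g j)) :
    ∃ G : ℕ × ℕ → ℕ, Computable G ∧ ∀ j < k, ∀ n, G (j, n) = g j n := by
  induction k with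
  | zero => exact ⟨fun _ => 0, Computable.const 0, fun j hj => by omega⟩
  | succ k ih =>
    obtain ⟨G, hG, h⟩ := ih fun j hj => hg j (by omega)
    refine ⟨fun q => if q.1 = k then g k q.2 else G q, ?_, ?_⟩
    · exact c_ite (p_eq (c_fst c_id) (c_const k)) ((hg k (by omega)).comp (c_snd c_id)) hG
    · intro j hj n
      by_cases h1 : j = k
      · simp [h1]
      · simp only [h1, if_false]
        exact h j (by omega) n

theorem glue_comp {k : ℕ} (hk : 0 < k) {p : ℕ → ℕ} {g : ℕ → (ℕ ≃ ℕ)}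
    (hg : ∀ j < k, Computable (g j)) {f : ℕ ≃ ℕ}
    (hf : ∀ x, f x = g (x % k) (x / k) * k + p (x % k)) : Computable f := by
  obtain ⟨G, hG, h⟩ := fin_case (fun j n => g j n) k hg
  obtain ⟨P, hP, h'⟩ := fin_case (fun j _ => p j) k (fun j _ => Computable.const _)
  have hmod : Computable fun x : ℕ => x % k :=
    (Primrec.nat_mod.to_comp).comp Computable.id (Computable.const k)
  have hdiv : Computable fun x : ℕ => x / k :=
    (Primrec.nat_div.to_comp).comp Computable.id (Computable.const k)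
  have h1 : Computable fun x => G (x % k, x / k) * k + P (x % k, 0) :=
    c_add (c_mul (hG.comp (c_pair hmod hdiv)) (c_const k)) (hP.comp (c_pair hmod (c_const 0)))
  refine h1.of_eq fun x => ?_
  have hlt : x % k < k := Nat.mod_lt _ hk
  rw [hf, h _ hlt, h' _ hlt]

end Pool.Agent.Y670.KC
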