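import Mathlib
import Pool.Agent.Y670.KC.Uni

set_option autoImplicit false

/-!
Computable copies of unions of connected structures are unions.
-/

namespace Pool.Agent.Y670.KC

open Pool.Agent.Helper941 Pool.Agent.Helper941.Dim Pool.Agent.Helper941.Zeta

/-- `R` is computably enumerable, with witnesses -/
def CE2 (R : ℕ → ℕ → Prop) : Prop :=
  ∃ P : ℕ × ℕ → ℕ → Prop, ComputablePred (fun q : (ℕ × ℕ) × ℕ => P q.1 q.2) ∧
    ∀ x y, R x y ↔ ∃ s, P (x, y) s

theorem ce_lk {A : Str} (hA : IsComp A) : CE2 (Lk A) := by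
  refine ⟨fun q s => q.1 = q.2 ∨ A s q.1 q.2 ∨ A s q.2 q.1, ?_, fun x y => ?_⟩
  · refine p_or (p_eq (c_fst (c_fst c_id)) (c_snd (c_fst c_id))) (p_or ?_ ?_)
    · exact IsoProb.computablePred_comp (P := fun q : ℕ × ℕ × ℕ => A q.1 q.2.1 q.2.2) hA
        (c_pair (c_snd c_id) (c_pair (c_fst (c_fst c_id)) (c_snd (c_fst c_id))))
    · exact IsoProb.computablePred_comp (P := fun q : ℕ × ℕ × ℕ => A q.1 q.2.1 q.2.2) hA
        (c_pair (c_snd c_id) (c_pair (c_snd (c_fst c_id)) (c_fst (c_fst c_id))))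
  · constructor
    · rintro (h | ⟨i, h⟩)
      · exact ⟨0, Or.inl h⟩
      · exact ⟨i, Or.inr h⟩
    · rintro ⟨s, h | h⟩
      · exact Or.inl h
      · exact Or.inr ⟨s, h⟩

theorem ce_comp {R : ℕ → ℕ → Prop} (h : CE2 R) : CE2 fun x y => ∃ z, R x z ∧ R z y := by
  obtain ⟨P, hP, h⟩ := h
  refine ⟨fun q s => P (q.1, s.unpair.1) s.unpair.2.unpair.1 ∧
    P (s.unpair.1, q.2) s.unpair.2.unpair.2, ?_, fun x y => ?_⟩
  · have c1 : Computable fun q : (ℕ × ℕ) × ℕ => q.2.unpair.1 := c_up1 (c_snd c_id)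
    have c2 : Computable fun q : (ℕ × ℕ) × ℕ => q.2.unpair.2 := c_up2 (c_snd c_id)
    refine p_and ?_ ?_
    · exact IsoProb.computablePred_comp (P := fun q : (ℕ × ℕ) × ℕ => P q.1 q.2) hP
        (c_pair (c_pair (c_fst (c_fst c_id)) c1) (c_up1 c2))
    · exact IsoProb.computablePred_comp (P := fun q : (ℕ × ℕ) × ℕ => P q.1 q.2) hP
        (c_pair (c_pair c1 (c_snd (c_fst c_id))) (c_up2 c2))
  · constructor
    · rintro ⟨z, h1, h2⟩
      obtain ⟨s, hs⟩ := (h _ _).1 h1
      obtain ⟨t, ht⟩ := (h _ _).1 h2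
      exact ⟨Nat.pair z (Nat.pair s t), by simpa using ⟨hs, ht⟩⟩
    · rintro ⟨s, h1, h2⟩
      exact ⟨_, (h _ _).2 ⟨_, h1⟩, (h _ _).2 ⟨_, h2⟩⟩

theorem ce_jn {A : Str} (hA : IsComp A) : ∀ n, CE2 (Jn A n)
  | 0 => ce_lk hA
  | n + 1 => ce_comp (ce_jn hA n)

/-- the part of a point of a computable copy is computable -/
theorem part_comp {C : Str} (hC : IsComp C) {k n : ℕ} {S : ℕ → Str} (hk : 0 < k)
    (hS : ∀ j < k, Con n (S j)) {g : ℕ ≃ ℕ} (hg : IsIso (Un k S) C g) :
    Computable fun x => g.symm x % k := by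
  obtain ⟨P, hP, h⟩ := ce_jn hC n
  obtain ⟨r, hr, h'⟩ := fin_case (fun j _ => g j) k (fun j _ => Computable.const _)
  have hiff : ∀ x, ∀ j < k, (∃ s, P (x, r (j, 0)) s) ↔ g.symm x % k = j := by
    intro x j hj
    rw [← h, h' j hj 0]
    constructor
    · intro h1
      have h2 := (h1.map (f := g.symm) (B := Un k S) (fun i x y h => (isIso_symm hg i x y).1 h)).un
      rwa [g.symm_apply_apply, Nat.mod_eq_of_lt hj] at h2
    · intro h1
      have h2 := (jn_un hS hk (x := g.symm x) (y := j) (by rw [h1, Nat.mod_eq_of_lt hj])).map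
        (f := g) (B := C) (fun i x y h => (hg i x y).1 h)
      rwa [g.apply_symm_apply] at h2
  have hc : Computable fun x => sInf {t : ℕ | t.unpair.1 < k ∧ P (x, r (t.unpair.1, 0)) t.unpair.2} := by
    refine c_least (P := fun x t => t.unpair.1 < k ∧ P (x, r (t.unpair.1, 0)) t.unpair.2) ?_ ?_
    · refine p_and (p_lt (c_up1 (c_snd c_id)) (c_const k)) ?_
      exact IsoProb.computablePred_comp (P := fun q : (ℕ × ℕ) × ℕ => P q.1 q.2) hP
        (c_pair (c_pair (c_fst c_id) (hr.comp (c_pair (c_up1 (c_snd c_id)) (c_const 0))))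
          (c_up2 (c_snd c_id)))
    · intro x
      have hj : g.symm x % k < k := Nat.mod_lt _ hk
      obtain ⟨s, hs⟩ := (hiff x _ hj).2 rfl
      exact ⟨Nat.pair (g.symm x % k) s, by simpa using ⟨hj, hs⟩⟩
  refine (c_up1 hc).of_eq fun x => ?_
  have hne : {t : ℕ | t.unpair.1 < k ∧ P (x, r (t.unpair.1, 0)) t.unpair.2}.Nonempty := by
    have hj : g.symm x % k < k := Nat.mod_lt _ hk
    obtain ⟨s, hs⟩ := (hiff x _ hj).2 rfl
    exact ⟨Nat.pair (g.symm x % k) s, by simpa using ⟨hj, hs⟩⟩
  have hm := Nat.sInf_mem hne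
  exact ((hiff x _ hm.1).1 ⟨_, hm.2⟩).symm

/-- a computable function with infinite fibres is the remainder of a computable permutation -/
theorem exists_phi {p : ℕ → ℕ} (hp : Computable p) {k : ℕ} (hk : 0 < k) (hlt : ∀ x, p x < k)
    (hinf : ∀ j < k, {x | p x = j}.Infinite) :
    ∃ φ : ℕ ≃ ℕ, Computable φ ∧ ∀ x, φ x % k = p x := by
  classical
  let c : ℕ → ℕ → ℕ := fun x n => Nat.count (fun y => p y = p x) n
  have hc : Computable fun q : ℕ × ℕ => c q.1 q.2 := by
    have h1 : Computable fun q : ℕ × ℕ => (Nat.rec 0 (fun n l => l + if p n = p q.1 then 1 else 0)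
        q.2 : ℕ) := by
      refine Computable.nat_rec (f := fun q : ℕ × ℕ => q.2) (g := fun _ => (0 : ℕ))
        (h := fun (q : ℕ × ℕ) (r : ℕ × ℕ) => r.2 + if p r.1 = p q.1 then 1 else 0)
        (c_snd c_id) (Computable.const 0) ?_
      refine c_add (c_snd (c_snd c_id)) (c_ite (p_eq (hp.comp (c_fst (c_snd c_id)))
        (hp.comp (c_fst (c_fst c_id)))) (c_const 1) (c_const 0))
    refine h1.of_eq fun q => ?_
    show _ = Nat.count (fun y => p y = p q.1) q.2
    induction q.2 with
    | zero => rfl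
    | succ n ih => rw [Nat.count_succ, ← ih]
  set F : ℕ → ℕ := fun x => c x x * k + p x with hF
  have hFc : Computable F := c_add (c_mul (hc.comp (c_pair c_id c_id)) (c_const k)) hp
  have m1 : ∀ x, F x % k = p x := fun x => md _ (hlt x)
  have d1 : ∀ x, F x / k = c x x := fun x => dv _ (hlt x)
  have hb : Function.Bijective F := by
    constructor
    · intro x y h
      have h1 : p x = p y := by rw [← m1, ← m1, h]
      have h2 : c x x = c y y := by rw [← d1, ← d1, h]
      have h3 : Nat.count (fun z => p z = p x) x = Nat.count (fun z => p z = p x) y := by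
        have h4 : c y y = Nat.count (fun z => p z = p x) y := by
          show Nat.count (fun z => p z = p y) y = _
          rw [h1]
        rw [← h4]
        exact h2
      exact Nat.count_injective (p := fun z => p z = p x) rfl h1.symm h3
    · intro y
      have hj : y % k < k := Nat.mod_lt _ hk
      have hi := hinf _ hj
      have h1 : p (Nat.nth (fun z => p z = y % k) (y / k)) = y % k :=
        Nat.nth_mem_of_infinite (p := fun z => p z = y % k) hi (y / k)
      refine ⟨Nat.nth (fun z => p z = y % k) (y / k), ?_⟩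
      show Nat.count (fun z => p z = p (Nat.nth (fun z => p z = y % k) (y / k)))
        (Nat.nth (fun z => p z = y % k) (y / k)) * k + p (Nat.nth (fun z => p z = y % k) (y / k)) = y
      simp only [h1]
      rw [Nat.count_nth_of_infinite (p := fun z => p z = y % k) hi, dm]
  exact ⟨Equiv.ofBijective F hb, hFc, m1⟩

/-- **normal form**: a computable copy of a union of connected structures is computably isomorphic
to a union of computable copies of the structures -/
theorem normal {C : Str} (hC : IsComp C) {k n : ℕ} {S : ℕ → Str} (hk : 0 < k)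
    (hS : ∀ j < k, Con n (S j)) {g : ℕ ≃ ℕ} (hg : IsIso (Un k S) C g) :
    ∃ D : ℕ → Str, (∀ j < k, IsCopy (S j) (D j)) ∧ CompIso (Un k D) C := by
  set p : ℕ → ℕ := fun x => g.symm x % k with hp
  have hpc : Computable p := part_comp hC hk hS hg
  have hlt : ∀ x, p x < k := fun x => Nat.mod_lt _ hk
  have hinf : ∀ j < k, {x | p x = j}.Infinite := by
    intro j hj
    refine Set.infinite_of_injective_forall_mem (f := fun a => g (a * k + j)) ?_ ?_
    · intro a b h
      have h2 := g.injective h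
      have h3 : a * k = b * k := by omega
      exact Nat.eq_of_mul_eq_mul_right hk h3
    · intro a
      show g.symm (g (a * k + j)) % k = j
      rw [g.symm_apply_apply, md a hj]
  obtain ⟨φ, hφ, hφ2⟩ := exists_phi hpc hk hlt hinf
  have hφs : Computable φ.symm := computable_symm hφ
  let D : ℕ → Str := fun j i a b => C i (φ.symm (a * k + j)) (φ.symm (b * k + j))
  have hD : IsIso C (Un k D) φ := by
    intro i x y
    show _ ↔ φ x % k = φ y % k ∧ C i (φ.symm (φ x / k * k + φ x % k)) (φ.symm (φ y / k * k + φ x % k))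
    rw [hφ2, hφ2]
    have hx : φ x / k * k + p x = φ x := by rw [← hφ2, dm]
    have hy : φ y / k * k + p y = φ y := by rw [← hφ2, dm]
    constructor
    · intro h
      have h1 : p x = p y := by
        have h2 := ((isIso_symm hg) i x y).1 h
        exact h2.1
      refine ⟨h1, ?_⟩
      rw [hx, h1, hy, φ.symm_apply_apply, φ.symm_apply_apply]
      exact h
    · rintro ⟨h1, h2⟩
      rw [hx, h1, hy, φ.symm_apply_apply, φ.symm_apply_apply] at h2
      exact h2
  refine ⟨D, fun j hj => ⟨?_, ?_⟩, ?_⟩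
  · refine IsoProb.computablePred_comp (P := fun q : ℕ × ℕ × ℕ => C q.1 q.2.1 q.2.2)
      (f := fun q : ℕ × ℕ × ℕ => (q.1, φ.symm (q.2.1 * k + j), φ.symm (q.2.2 * k + j))) hC ?_
    exact c_pair (c_fst c_id) (c_pair
      (hφs.comp (c_add (c_mul (c_fst (c_snd c_id)) (c_const k)) (c_const j)))
      (hφs.comp (c_add (c_mul (c_snd (c_snd c_id)) (c_const k)) (c_const j))))
  · have h1 := isIso_trans hg hD
    obtain ⟨h, hh, _⟩ := part_iso hk h1 (p := fun j => j) (fun x => by
      show φ (g x) % k = x % k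
      rw [hφ2]
      show g.symm (g x) % k = x % k
      rw [g.symm_apply_apply]) (fun i _ j _ h => h) hj
    exact ⟨h, hh⟩
  · exact CompIso.symm ⟨φ, hD, hφ⟩

end Pool.Agent.Y670.KC
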