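import Mathlib
import Pool.Agent.Y670.KC.Nor

set_option autoImplicit false

/-!
`k` disjoint copies of a connected structure of computable dimension two have computable
dimension `k + 1`.
-/

namespace Pool.Agent.Y670.KC

open Pool.Agent.Helper941 Pool.Agent.Helper941.Dim Pool.Agent.Helper941.Zeta

/-- the first `m` parts are `B`, the others `A` -/
def Ty (A B : Str) (m : ℕ) : ℕ → Str := fun j => if j < m then B else A

theorem ty_cases (A B : Str) (m j : ℕ) : Ty A B m j = A ∨ Ty A B m j = B := by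
  unfold Ty
  by_cases h : j < m <;> simp [h]

theorem ty_con {A B : Str} {n : ℕ} (hA : Con n A) (hB : Con n B) (m j : ℕ) :
    Con n (Ty A B m j) := by
  rcases ty_cases A B m j with h | h <;> rw [h] <;> assumption

/-- the union of the parts is computable -/
theorem ty_comp {A B : Str} (hA : IsComp A) (hB : IsComp B) (k m : ℕ) :
    IsComp (Un k (Ty A B m)) := by
  have hmod : Computable fun x : ℕ => x % k :=
    (Primrec.nat_mod.to_comp).comp Computable.id (Computable.const k)
  have hdiv : Computable fun x : ℕ => x / k :=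
    (Primrec.nat_div.to_comp).comp Computable.id (Computable.const k)
  have hd : Computable fun q : ℕ × ℕ × ℕ => (q.1, q.2.1 / k, q.2.2 / k) :=
    c_pair (c_fst c_id) (c_pair (hdiv.comp (c_fst (c_snd c_id)))
      (hdiv.comp (c_snd (c_snd c_id))))
  have h1 : ComputablePred fun q : ℕ × ℕ × ℕ => A q.1 (q.2.1 / k) (q.2.2 / k) :=
    IsoProb.computablePred_comp (P := fun q : ℕ × ℕ × ℕ => A q.1 q.2.1 q.2.2) hA hd
  have h2 : ComputablePred fun q : ℕ × ℕ × ℕ => B q.1 (q.2.1 / k) (q.2.2 / k) :=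
    IsoProb.computablePred_comp (P := fun q : ℕ × ℕ × ℕ => B q.1 q.2.1 q.2.2) hB hd
  have h3 : ComputablePred fun q : ℕ × ℕ × ℕ => q.2.1 % k < m :=
    p_lt (hmod.comp (c_fst (c_snd c_id))) (c_const m)
  have h4 : ComputablePred fun q : ℕ × ℕ × ℕ => q.2.1 % k = q.2.2 % k :=
    p_eq (hmod.comp (c_fst (c_snd c_id))) (hmod.comp (c_snd (c_snd c_id)))
  refine (p_and h4 (p_or (p_and h3 h2) (p_and (p_not h3) h1))).of_eq fun q => ?_
  show _ ↔ (q.2.1 % k = q.2.2 % k ∧ (if q.2.1 % k < m then B else A) q.1 (q.2.1 / k) (q.2.2 / k))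
  by_cases h : q.2.1 % k < m <;> simp [h]

theorem ty_zero (A B : Str) : Ty A B 0 = fun _ => A := by
  funext j
  simp [Ty]

variable {A B : Str} {n k : ℕ}

theorem ty_copy (hk : 0 < k) (hA : IsComp A) (hB : IsComp B)
    (hAB : ∃ f : ℕ ≃ ℕ, IsIso A B f) (m : ℕ) :
    IsCopy (Un k fun _ => A) (Un k (Ty A B m)) := by
  refine ⟨ty_comp hA hB k m, ?_⟩
  have h1 : ∀ j, ∃ f : ℕ ≃ ℕ, IsIso A (Ty A B m j) f := by
    intro j
    rcases ty_cases A B m j with h | h <;> rw [h]
    · exact ⟨Equiv.refl ℕ, fun _ _ _ => Iff.rfl⟩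
    · exact hAB
  choose g hg using h1
  obtain ⟨f, hf, _⟩ := glue_iso hk (S := fun _ => A) (S' := Ty A B m) (fun j => j)
    (fun j hj => hj) (fun i _ j _ h => h) g (fun j _ => hg j)
  exact ⟨f, hf⟩

theorem ty_le (hk : 0 < k) (hcA : Con n A) (hcB : Con n B) (hno : ¬ CompIso A B) {m m' : ℕ}
    (hm : m ≤ k) (h : CompIso (Un k (Ty A B m)) (Un k (Ty A B m'))) : m ≤ m' := by
  obtain ⟨f, hf, hfc⟩ := h
  obtain ⟨p, hp, hinj⟩ := exists_perm hk (fun j _ => ty_con hcA hcB m j)
    (fun j _ => ty_con hcA hcB m' j) hf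
  have hmap : ∀ j < m, p j < m' := by
    intro j hj
    obtain ⟨g, hg, hg2⟩ := part_iso hk hf hp hinj (show j < k by omega)
    have hgc : Computable g := by
      have hdiv : Computable fun x : ℕ => x / k :=
        (Primrec.nat_div.to_comp).comp Computable.id (Computable.const k)
      exact (hdiv.comp (hfc.comp (c_add (c_mul c_id (c_const k)) (c_const j)))).of_eq
        fun a => (hg2 a).symm
    by_contra hc
    apply hno
    have e1 : Ty A B m j = B := by unfold Ty; simp [hj]
    have e2 : Ty A B m' (p j) = A := by unfold Ty; simp [hc]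
    rw [e1, e2] at hg
    exact CompIso.symm ⟨g, hg, hgc⟩
  have h1 := Finset.card_le_card_of_injOn (s := Finset.range m) (t := Finset.range m') p
    (fun j hj => by
      have hj' : j < m := by simpa using hj
      simpa using hmap j hj')
    (fun i hi j hj h => hinj i (by
      have : i < m := by simpa using hi
      omega) j (by
      have : j < m := by simpa using hj
      omega) h)
  simpa using h1

theorem ty_inj (hk : 0 < k) (hcA : Con n A) (hcB : Con n B) (hno : ¬ CompIso A B) {m m' : ℕ}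
    (hm : m ≤ k) (hm' : m' ≤ k) (h : CompIso (Un k (Ty A B m)) (Un k (Ty A B m'))) : m = m' :=
  le_antisymm (ty_le hk hcA hcB hno hm h) (ty_le hk hcA hcB hno hm' h.symm)

theorem ty_surj (hk : 0 < k) (hcA : Con n A)
    (hdim : ∀ C, IsCopy A C → CompIso A C ∨ CompIso B C) {C : Str}
    (hC : IsCopy (Un k fun _ => A) C) : ∃ m ≤ k, CompIso (Un k (Ty A B m)) C := by
  classical
  obtain ⟨hC1, g, hg⟩ := hC
  obtain ⟨D, hD, hDC⟩ := normal hC1 hk (S := fun _ => A) (fun j _ => hcA) hg
  let Q : Fin k → Prop := fun j => CompIso B (D j)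
  have hQ : Fintype.card {j : Fin k // Q j} ≤ k := by
    have := Fintype.card_subtype_le Q
    simpa using this
  set m := Fintype.card {j : Fin k // Q j} with hm
  have hcard : Fintype.card {j : Fin k // (j : ℕ) < m} = Fintype.card {j : Fin k // Q j} := by
    rw [Fintype.card_fin_lt_of_le hQ]
  obtain ⟨e⟩ : Nonempty ({j : Fin k // (j : ℕ) < m} ≃ {j : Fin k // Q j}) :=
    ⟨Fintype.equivOfCardEq hcard⟩
  let π : Equiv.Perm (Fin k) := e.extendSubtype
  let p : ℕ → ℕ := fun j => if h : j < k then π ⟨j, h⟩ else 0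
  have hpj : ∀ j (h : j < k), p j = π ⟨j, h⟩ := fun j h => by simp [p, h]
  have hlt : ∀ j < k, p j < k := fun j h => by rw [hpj j h]; exact (π ⟨j, h⟩).2
  have hinj : ∀ i < k, ∀ j < k, p i = p j → i = j := by
    intro i hi j hj h
    rw [hpj i hi, hpj j hj] at h
    have h1 := π.injective (Fin.ext h)
    simpa using h1
  have hiso : ∀ j < k, CompIso (Ty A B m j) (D (p j)) := by
    intro j hj
    rw [hpj j hj]
    by_cases h1 : j < m
    · have h2 : Q (π ⟨j, hj⟩) := e.extendSubtype_mem ⟨j, hj⟩ h1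
      have e1 : Ty A B m j = B := by unfold Ty; simp [h1]
      rw [e1]
      exact h2
    · have h2 : ¬ Q (π ⟨j, hj⟩) := e.extendSubtype_not_mem ⟨j, hj⟩ h1
      have e1 : Ty A B m j = A := by unfold Ty; simp [h1]
      rw [e1]
      exact (hdim _ (hD _ (π ⟨j, hj⟩).2)).resolve_right h2
  have h3 : ∀ j, ∃ g : ℕ ≃ ℕ, j < k → IsIso (Ty A B m j) (D (p j)) g ∧ Computable g := by
    intro j
    by_cases hj : j < k
    · obtain ⟨g, hg⟩ := hiso j hj
      exact ⟨g, fun _ => hg⟩
    · exact ⟨Equiv.refl ℕ, fun h => (hj h).elim⟩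
  choose q hq using h3
  obtain ⟨f, hf, hf2⟩ := glue_iso hk (S := Ty A B m) (S' := D) p hlt hinj q
    (fun j hj => (hq j hj).1)
  exact ⟨m, hQ, CompIso.trans ⟨f, hf, glue_comp hk (fun j hj => (hq j hj).2) hf2⟩ hDC⟩

/-- **`k` copies of a connected structure of dimension two have dimension `k + 1`** -/
theorem dim_un (hk : 0 < k) (hA : IsComp A) (hB : IsComp B) (hcA : Con n A)
    (hAB : ∃ f : ℕ ≃ ℕ, IsIso A B f) (hno : ¬ CompIso A B)
    (hdim : ∀ C, IsCopy A C → CompIso A C ∨ CompIso B C) :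
    compDim (Un k fun _ => A) = (k + 1 : ℕ) := by
  obtain ⟨f0, hf0⟩ := hAB
  have hcB : Con n B := hcA.iso hf0
  have hcop := ty_copy (k := k) hk hA hB ⟨f0, hf0⟩
  let F : Fin (k + 1) → Quotient (copySetoid (Un k fun _ => A)) := fun m =>
    Quotient.mk _ ⟨Un k (Ty A B m), hcop m⟩
  have hb : Function.Bijective F := by
    constructor
    · intro m m' h
      have h1 : CompIso (Un k (Ty A B m)) (Un k (Ty A B m')) := Quotient.exact h
      exact Fin.ext (ty_inj hk hcA hcB hno (by omega) (by omega) h1)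
    · intro c
      obtain ⟨⟨C, hC⟩, rfl⟩ := Quotient.exists_rep c
      obtain ⟨m, hm, h⟩ := ty_surj (B := B) hk hcA hdim hC
      exact ⟨⟨m, by omega⟩, Quotient.sound h⟩
  unfold compDim
  rw [← Cardinal.mk_congr (Equiv.ofBijective F hb), Cardinal.mk_fin]

end Pool.Agent.Y670.KC
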