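import Mathlib
import Pool.Agent.Helper750.UC.Two
import Pool.Agent.Y670.KC.Uni
import Pool.Agent.Y670.KC.Stm2

set_option autoImplicit false

/-!
The structure of dimension two of `Pool.Agent.Helper750.UC.Two` is connected; the proof of
`two_con` is that of `Pool.Agent.Helper750.UC.two`.
-/

namespace Pool.Agent.Y670.KC

open FirstOrder FirstOrder.Language Pool.Agent.Helper158.FCD Pool.Agent.Helper750.OC
open Pool.Agent.Helper750.UC Pool.Agent.Helper941

theorem lk_pair (lbl : ℕ → List Bool) (c : ℕ) : Lk (RS lbl) (4 * c + 2) (4 * c) := by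
  refine Or.inr ⟨2 * c, Or.inl ?_⟩
  unfold RS
  rw [if_pos (by omega)]
  omega

/-- a label element is linked with one of the two points of the number `c` -/
theorem lk_label (lbl : ℕ → List Bool) (k c : ℕ) (hc : c < (lbl k).length) :
    Lk (RS lbl) (2 * k + 1) (4 * c) ∨ Lk (RS lbl) (2 * k + 1) (4 * c + 2) := by
  cases hb : (lbl k).getD c false with
  | false =>
    left
    refine Or.inr ⟨2 * (lbl k).length + 1, Or.inl ?_⟩
    unfold RS
    rw [if_neg (by omega)]
    have e1 : (2 * k + 1) / 2 = k := by omega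
    have e2 : 4 * c / 4 = c := by omega
    have e3 : (2 * (lbl k).length + 1) / 2 = (lbl k).length := by omega
    have e4 : ¬ (4 * c / 2 % 2 = 1) := by omega
    rw [e1, e2, e3, hb, decide_eq_false e4]
    exact ⟨by omega, by omega, rfl, hc, rfl⟩
  | true =>
    right
    refine Or.inr ⟨2 * (lbl k).length + 1, Or.inl ?_⟩
    unfold RS
    rw [if_neg (by omega)]
    have e1 : (2 * k + 1) / 2 = k := by omega
    have e2 : (4 * c + 2) / 4 = c := by omega
    have e3 : (2 * (lbl k).length + 1) / 2 = (lbl k).length := by omega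
    have e4 : (4 * c + 2) / 2 % 2 = 1 := by omega
    rw [e1, e2, e3, hb, decide_eq_true e4]
    exact ⟨by omega, by omega, rfl, hc, rfl⟩

/-- a label element is joined to every point `4 c` below its length -/
theorem jn_label (lbl : ℕ → List Bool) (k c : ℕ) (hc : c < (lbl k).length) :
    Jn (RS lbl) 1 (2 * k + 1) (4 * c) := by
  rcases lk_label lbl k c hc with h | h
  · exact ⟨4 * c, h, Or.inl rfl⟩
  · exact ⟨4 * c + 2, h, lk_pair lbl c⟩

theorem jn_root (lbl : ℕ → List Bool) (hn : ∀ k, lbl k ≠ [])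
    (hz : ∀ ℓ, ℓ ≠ 0 → ∃ k, lbl k = Z ℓ) (x : ℕ) : Jn (RS lbl) 3 x 0 := by
  have hr : Jn (RS lbl) 2 0 0 := ⟨0, ⟨0, Or.inl rfl, Or.inl rfl⟩, ⟨0, Or.inl rfl, Or.inl rfl⟩⟩
  have hup : ∀ {a b}, Jn (RS lbl) 1 a b → Jn (RS lbl) 2 a b := fun {a b} h =>
    ⟨b, h, ⟨b, Or.inl rfl, Or.inl rfl⟩⟩
  have h0 : ∀ k, Jn (RS lbl) 2 (2 * k + 1) 0 := fun k =>
    hup (jn_label lbl k 0 (List.length_pos_of_ne_nil (hn k)))
  by_cases hx : x % 2 = 1
  · have e : x = 2 * (x / 2) + 1 := by omega
    rw [e]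
    exact ⟨0, h0 _, hr⟩
  · obtain ⟨k, hk⟩ := hz (x / 4 + 1) (by omega)
    have hlen : x / 4 < (lbl k).length := by rw [hk, Z_len]; omega
    have h1 : Jn (RS lbl) 1 (4 * (x / 4)) (2 * k + 1) := (jn_label lbl k _ hlen).symm
    have h2 : Jn (RS lbl) 1 x (4 * (x / 4)) := by
      have : x = 4 * (x / 4) ∨ x = 4 * (x / 4) + 2 := by omega
      rcases this with h | h
      · rw [← h]
        exact ⟨x, Or.inl rfl, Or.inl rfl⟩
      · have h3 := lk_pair lbl (x / 4)
        rw [← h] at h3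
        exact ⟨_, h3, Or.inl rfl⟩
    exact ⟨2 * k + 1, ⟨_, h2, h1⟩, h0 k⟩

theorem rs_con (lbl : ℕ → List Bool) (hn : ∀ k, lbl k ≠ [])
    (hz : ∀ ℓ, ℓ ≠ 0 → ∃ k, lbl k = Z ℓ) : Con 4 (RS lbl) := fun x y =>
  ⟨0, jn_root lbl hn hz x, (jn_root lbl hn hz y).symm⟩

theorem rs_noIso (lbl : ℕ → List Bool) (hn : ∀ k, lbl k ≠ [])
    (_hz : ∀ ℓ, ℓ ≠ 0 → ∃ k, lbl k = Z ℓ) : NoIso (RS lbl) := by
  have key : ∀ {x y}, x ≠ y → Lk (RS lbl) x y → ∃ i z, RS lbl i x z ∨ RS lbl i z x := by
    rintro x y hne (h | ⟨i, h⟩)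
    · exact (hne h).elim
    · exact ⟨i, y, h⟩
  intro x
  by_cases hx : x % 2 = 1
  · have e : x = 2 * (x / 2) + 1 := by omega
    have hl : 0 < (lbl (x / 2)).length := List.length_pos_of_ne_nil (hn _)
    rcases lk_label lbl (x / 2) 0 hl with h | h
    · rw [← e] at h
      exact key (by omega) h
    · rw [← e] at h
      exact key (by omega) h
  · have : x = 4 * (x / 4) ∨ x = 4 * (x / 4) + 2 := by omega
    rcases this with h | h
    · have h3 := (lk_pair lbl (x / 4)).symm
      rw [← h] at h3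
      exact key (by omega) h3
    · have h3 := lk_pair lbl (x / 4)
      rw [← h] at h3
      exact key (by omega) h3

/-- late points of the structure of a labelling -/
theorem rs_late (lbl : ℕ → List Bool) (hc : Computable lbl)
    (hz : ∀ ℓ, ℓ ≠ 0 → ∃ k, lbl k = Z ℓ) : ∃ e, LatePts (RS lbl) e := by
  have hex : ∀ q : ℕ × ℕ, ∃ t, q.2 < t ∧ q.1 ≤ (lbl t).length := by
    intro q
    have h1 : ∀ n, ∃ k, lbl k = Z (n + q.1 + 1) := fun n => hz _ (by omega)
    choose τ hτ using h1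
    have hinf : {t | q.1 ≤ (lbl t).length}.Infinite := by
      refine Set.infinite_of_injective_forall_mem (f := τ) ?_ ?_
      · intro a b h
        have h2 := hτ a
        rw [h, hτ b] at h2
        have h3 := congrArg List.length h2
        rw [Z_len, Z_len] at h3
        omega
      · intro a
        show q.1 ≤ (lbl (τ a)).length
        rw [hτ, Z_len]
        omega
    obtain ⟨t, ht, h⟩ := hinf.exists_gt q.2
    exact ⟨t, h, ht⟩
  let nx : ℕ × ℕ → ℕ := fun q => sInf {t | q.2 < t ∧ q.1 ≤ (lbl t).length}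
  have hnx : ∀ q, q.2 < nx q ∧ q.1 ≤ (lbl (nx q)).length := fun q =>
    Nat.sInf_mem (s := {t | q.2 < t ∧ q.1 ≤ (lbl t).length}) (hex q)
  have cnx : Computable nx := by
    refine Zeta.c_least (P := fun (q : ℕ × ℕ) t => q.2 < t ∧ q.1 ≤ (lbl t).length) ?_ hex
    exact Zeta.p_and (Zeta.p_lt (Zeta.c_snd (Zeta.c_fst Zeta.c_id)) (Zeta.c_snd Zeta.c_id))
      (Zeta.p_le (Zeta.c_fst (Zeta.c_fst Zeta.c_id))
        (Computable.list_length.comp (hc.comp (Zeta.c_snd Zeta.c_id))))
  let t : ℕ → ℕ := fun s => Nat.rec (nx (0, 0)) (fun s r => nx (s + 1, r)) s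
  have ct : Computable t := by
    refine Computable.nat_rec (f := fun s : ℕ => s) (g := fun _ => nx (0, 0))
      (h := fun (_ : ℕ) (r : ℕ × ℕ) => nx (r.1 + 1, r.2)) Zeta.c_id (Computable.const _) ?_
    exact cnx.comp (Zeta.c_pair (Zeta.c_succ (Zeta.c_fst (Zeta.c_snd Zeta.c_id)))
      (Zeta.c_snd (Zeta.c_snd Zeta.c_id)))
  have h1 : ∀ s, t s < t (s + 1) := fun s => (hnx (s + 1, t s)).1
  have h2 : ∀ s, s ≤ (lbl (t s)).length := by
    intro s
    cases s with
    | zero => exact Nat.zero_le _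
    | succ s => exact (hnx (s + 1, t s)).2
  refine ⟨fun s => 2 * t s + 1, ?_, ?_, ?_, ?_⟩
  · exact Zeta.c_succ (Zeta.c_mul (Zeta.c_const 2) ct)
  · refine strictMono_nat_of_lt_succ fun s => ?_
    have := h1 s
    show 2 * t s + 1 < 2 * t (s + 1) + 1
    omega
  · refine Set.infinite_of_injective_forall_mem (f := fun n : ℕ => 2 * n) ?_ ?_
    · intro a b h
      have : 2 * a = 2 * b := h
      omega
    · rintro n ⟨s, hs⟩
      have : 2 * t s + 1 = 2 * n := hs
      omega
  · rintro s i y h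
    have h3 := h2 s
    have key : RS lbl i (2 * t s + 1) y → s ≤ i := by
      intro h
      unfold RS at h
      split_ifs at h with h4
      · omega
      · have e1 : (2 * t s + 1) / 2 = t s := by omega
        rw [e1] at h
        omega
    have key2 : ¬ RS lbl i y (2 * t s + 1) := by
      intro h
      unfold RS at h
      split_ifs at h with h4
      · omega
      · omega
    rcases h with h | h
    · exact key h
    · exact (key2 h).elim


theorem two_con (T : TorsorData) : ∃ A B : ℕ → ℕ → ℕ → Prop, Con 4 A ∧ NoIso A ∧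
    (∃ e, LatePts A e) ∧
    (∀ i, {p : ℕ × ℕ | A i p.1 p.2}.Finite) ∧ IsComp A ∧ IsComp B ∧ (∃ f, IsIsoN A B f) ∧
    (¬ ∃ f, Computable f ∧ IsIsoN A B f) ∧
    ∀ C, IsComp C → (∃ f, IsIsoN A C f) →
      (∃ f, Computable f ∧ IsIsoN A C f) ∨ ∃ f, Computable f ∧ IsIsoN B C f := by
  have hU := isU_of T
  obtain ⟨lA, cA, iA, rA⟩ := exists_lbl T Z Z_len (by
    have h : Computable fun n : ℕ => (List.range n).map fun _ => false :=
      J_col_comp.cc_map (g := fun _ _ => false) (crange' Computable.id) (Computable.const false)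
    refine h.of_eq fun n => ?_
    unfold Z
    apply List.ext_getElem <;> simp)
  obtain ⟨lB, cB, iB, rB⟩ := exists_lbl T T.F T.lenF T.compF
  have nA : ∀ k, lA k ≠ [] := fun k => ((rA _).1 ⟨k, rfl⟩).1
  have zero : ∀ ℓ, Lim T.Est (Z ℓ) := hU.zero
  have zlab : ∀ ℓ, ℓ ≠ 0 → ∃ k, lA k = Z ℓ := fun ℓ hℓ => (rA (Z ℓ)).2 ⟨by
    rw [ne_eq, ← List.length_eq_zero_iff, Z_len]; exact hℓ, by
    rw [sx_Z]; exact zero ℓ⟩
  refine ⟨RS lA, RS lB, rs_con lA nA zlab, rs_noIso lA nA zlab, rs_late lA cA zlab, RS_finite lA iA, RS_comp lA cA,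
    RS_comp lB cB, ?_, ?_, ?_⟩
  · -- isomorphic
    obtain ⟨z, hz⟩ := Pool.Agent.Helper750.OC.J_exists_z.exists_z (Lim T.Est) hU T.F T.lenF T.cohF
    obtain ⟨f, _, hf⟩ := RS_iso lA lB iA iB z (fun x => by
      rw [rA, rB]
      refine shift_iff hU Z_len T.lenF z (fun ℓ => ?_) x
      rw [Z_sx' (T.lenF ℓ)]
      exact hz ℓ)
    exact ⟨f, hf⟩
  · rintro ⟨g, hg, hg2⟩
    apply T.noniso
    refine ⟨fun c => decide ((g (4 * c) / 2) % 2 = 1), ?_, ?_⟩
    · have h1 : Computable fun c : ℕ => 4 * c :=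
        (Primrec.nat_mul.comp (Primrec.const 4) Primrec.id).to_comp
      have h2 : Computable fun c : ℕ => g (4 * c) / 2 :=
        (Primrec.nat_div.to_comp).comp (hg.comp h1) (Computable.const 2)
      have h3 : Computable fun c : ℕ => g (4 * c) / 2 % 2 :=
        (Primrec.nat_mod.to_comp).comp h2 (Computable.const 2)
      exact Pool.Agent.Helper446.RE.cdecide (Pool.Agent.Helper446.RE.cp_eq h3
        (Computable.const 1))
    · intro ℓ
      by_cases hℓ : ℓ = 0
      · subst hℓ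
        have := zero 0
        simpa [sx, pre, Z] using this
      · obtain ⟨k, hk⟩ := (rA (Z ℓ)).2 ⟨by
          rw [ne_eq, ← List.length_eq_zero_iff, Z_len]; exact hℓ, by
          rw [sx_Z]; exact zero ℓ⟩
        obtain ⟨k', hk'⟩ := RS_shift lA lB nA g hg2 k
        rw [hk, Z_len, Z_sx' (pre_len _ _)] at hk'
        have := ((rB _).1 ⟨k', hk'⟩).2
        rwa [pre_len] at this
  · intro C hC hAC
    obtain ⟨g, hg⟩ := hAC
    obtain ⟨lC, cC, iC, nC, f, hf, hf2⟩ := normal lA iA nA C hC g hg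
    obtain ⟨f', f1, f2⟩ := Function.bijective_iff_has_inverse.1 hf2.1
    obtain ⟨g', g1, g2⟩ := Function.bijective_iff_has_inverse.1 hg.1
    have i1 : IsIsoN (RS lA) (RS lC) fun a => f' (g a) := isoN_trans hg (isoN_symm hf2 f1 f2)
    have i2 : IsIsoN (RS lC) (RS lA) fun a => g' (f a) := isoN_trans hf2 (isoN_symm hg g1 g2)
    have s1 := RS_shift lA lC nA _ i1
    have s2 := RS_shift lC lA nC _ i2
    set a0 : ℕ → Bool := fun c => decide ((f' (g (4 * c)) / 2) % 2 = 1) with ha0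
    set a1 : ℕ → Bool := fun c => decide ((g' (f (4 * c)) / 2) % 2 = 1) with ha1
    have rA' : ∀ x, (∃ k, lA k = x) ↔ (x ≠ [] ∧ Lim T.Est x) := by
      intro x
      rw [rA, sx_Z]
    -- the shift of the zero label
    have z1 : ∀ ℓ, ℓ ≠ 0 → ∃ k, lC k = pre a0 ℓ := by
      intro ℓ hℓ
      obtain ⟨k, hk⟩ := (rA' (Z ℓ)).2 ⟨by
        rw [ne_eq, ← List.length_eq_zero_iff, Z_len]; exact hℓ, zero ℓ⟩
      obtain ⟨k', hk'⟩ := s1 k
      rw [hk, Z_len, Z_sx' (pre_len _ _)] at hk'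
      exact ⟨k', hk'⟩
    have z2 : ∀ ℓ, Lim T.Est (sx (pre a0 ℓ) (pre a1 ℓ)) := by
      intro ℓ
      by_cases hℓ : ℓ = 0
      · subst hℓ
        have := zero 0
        simpa [sx, pre, Z] using this
      · obtain ⟨k, hk⟩ := z1 ℓ hℓ
        obtain ⟨k', hk'⟩ := s2 k
        rw [hk, pre_len] at hk'
        exact ((rA' _).1 ⟨k', hk'⟩).2
    have rC : ∀ y, (∃ k, lC k = y) ↔ (y ≠ [] ∧ Lim T.Est (sx y (pre a0 y.length))) := by
      intro y
      constructor
      · rintro ⟨k, rfl⟩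
        refine ⟨nC k, ?_⟩
        obtain ⟨k', hk'⟩ := s2 k
        have u := ((rA' _).1 ⟨k', hk'⟩).2
        have p0 := pre_len a0 (lC k).length
        have p1 := pre_len a1 (lC k).length
        refine U_of hU (slen rfl p1) (slen p0 p1) (slen rfl p0) u (z2 _) fun j => ?_
        rw [sget rfl p0, sget rfl p1, sget p0 p1]
        cases (lC k).getD j false <;> cases (pre a0 (lC k).length).getD j false <;>
          cases (pre a1 (lC k).length).getD j false <;> rfl
      · rintro ⟨hy, u⟩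
        have p0 := pre_len a0 y.length
        have hl := slen (rfl : y.length = y.length) p0
        obtain ⟨k, hk⟩ := (rA' _).2 ⟨(nil_iff rfl hl).1 hy, u⟩
        obtain ⟨k', hk'⟩ := s1 k
        rw [hk, hl, sx_cancel (by rw [p0])] at hk'
        exact ⟨k', hk'⟩
    obtain ⟨m, mc, ml, mr⟩ := first_len lC cC (fun ℓ hℓ => by
      obtain ⟨k, hk⟩ := z1 ℓ hℓ
      exact ⟨k, by rw [hk, pre_len]⟩)
    have mU : ∀ ℓ, Lim T.Est (sx (m ℓ) (pre a0 ℓ)) := by
      intro ℓ
      by_cases hℓ : ℓ = 0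
      · subst hℓ
        have h0 : m 0 = [] := List.length_eq_zero_iff.1 (ml 0)
        have := zero 0
        rw [h0]
        simpa [sx, pre, Z] using this
      · have := ((rC _).1 (mr ℓ hℓ)).2
        rwa [ml] at this
    obtain ⟨a, ha, h⟩ := T.dich m mc ml (by
      intro k ℓ hk
      have u1 := hU.restr _ k (mU ℓ)
      rw [sx_take, pre_take _ _ _ hk] at u1
      have hl : ((m ℓ).take k).length = k := by rw [List.length_take, ml]; omega
      refine U_of hU (slen hl (pre_len a0 k)) (slen (ml k) (pre_len a0 k)) (slen hl (ml k)) u1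
        (mU k) fun j => ?_
      rw [sget hl (ml k), sget hl (pre_len a0 k), sget (ml k) (pre_len a0 k)]
      cases ((m ℓ).take k).getD j false <;> cases (m k).getD j false <;>
        cases (pre a0 k).getD j false <;> rfl)
    rcases h with h | h
    · left
      obtain ⟨e, he, he2⟩ := RS_iso lA lC iA iC a (fun x => by
        rw [rA, rC]
        refine shift_iff hU Z_len (fun ℓ => pre_len a0 ℓ) a (fun ℓ => ?_) x
        have p0 := pre_len a0 ℓ
        have pa := pre_len a ℓ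
        rw [Z_sx' p0]
        refine U_of hU (slen pa (ml ℓ)) (slen (ml ℓ) p0) (slen pa p0) (h ℓ) (mU ℓ) fun j => ?_
        rw [sget pa p0, sget pa (ml ℓ), sget (ml ℓ) p0]
        cases (pre a ℓ).getD j false <;> cases (m ℓ).getD j false <;>
          cases (pre a0 ℓ).getD j false <;> rfl)
      exact ⟨_, hf.comp (he cA cC ha), isoN_trans he2 hf2⟩
    · right
      obtain ⟨e, he, he2⟩ := RS_iso lB lC iB iC a (fun x => by
        rw [rB, rC]
        refine shift_iff hU T.lenF (fun ℓ => pre_len a0 ℓ) a (fun ℓ => ?_) x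
        have p0 := pre_len a0 ℓ
        have pa := pre_len a ℓ
        have pF := T.lenF ℓ
        refine U_of hU (slen pa (slen (ml ℓ) pF)) (slen (ml ℓ) p0) (slen pa (slen pF p0)) (h ℓ)
          (mU ℓ) fun j => ?_
        rw [sget pa (slen pF p0), sget pF p0, sget pa (slen (ml ℓ) pF), sget (ml ℓ) pF,
          sget (ml ℓ) p0]
        cases (pre a ℓ).getD j false <;> cases (m ℓ).getD j false <;>
          cases (pre a0 ℓ).getD j false <;> cases (T.F ℓ).getD j false <;> rfl)
      exact ⟨_, hf.comp (he cB cC ha), isoN_trans he2 hf2⟩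


end Pool.Agent.Y670.KC
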