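import Mathlib
import Pool.Agent.Y670.KC.Dim
import Pool.Agent.Y670.KC.Two
import Pool.Agent.Y670.KC.Stm2
import Pool.Agent.Helper158.FCD.Torsor

set_option autoImplicit false

/-!
Computable structures of every finite dimension `n ≥ 2` with finite relations.
-/

namespace Pool.Agent.Y670.KC

open Pool.Agent.Helper941 Pool.Agent.Helper941.Dim
open Pool.Agent.Helper750.UC (IsIsoN)

theorem finRel_un {A : Str} (h : FinRel A) (k : ℕ) (hk : 0 < k) : FinRel (Un k fun _ => A) := by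
  intro i
  have h1 : ((Finset.range k : Set ℕ) ×ˢ {p : ℕ × ℕ | A i p.1 p.2}).Finite :=
    (Finset.finite_toSet _).prod (h i)
  refine (h1.image fun q : ℕ × ℕ × ℕ => (q.2.1 * k + q.1, q.2.2 * k + q.1)).subset ?_
  rintro ⟨x, y⟩ ⟨h2, h3⟩
  refine ⟨(x % k, x / k, y / k), ⟨?_, h3⟩, ?_⟩
  · simpa using Nat.mod_lt x hk
  · show (x / k * k + x % k, y / k * k + x % k) = (x, y)
    have h2' : x % k = y % k := h2
    have e1 := dm k x
    have e2 := dm k y
    rw [e1, h2', e2]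

theorem noIso_un {A : Str} (h : NoIso A) (k : ℕ) (hk : 0 < k) : NoIso (Un k fun _ => A) := by
  intro x
  have hj : x % k < k := Nat.mod_lt _ hk
  obtain ⟨i, y, h1⟩ := h (x / k)
  refine ⟨i, y * k + x % k, ?_⟩
  rcases h1 with h1 | h1
  · left
    have := (un_iff hj (fun _ => A) i (x / k) y).2 h1
    rwa [dm] at this
  · right
    have := (un_iff hj (fun _ => A) i y (x / k)).2 h1
    rwa [dm] at this

theorem late_un {A : Str} {e : ℕ → ℕ} (h : LatePts A e) (k : ℕ) (hk : 0 < k) :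
    LatePts (Un k fun _ => A) fun s => e s * k := by
  refine ⟨Zeta.c_mul h.comp (Zeta.c_const k), fun a b hab => ?_, ?_, fun s i y h1 => ?_⟩
  · exact Nat.mul_lt_mul_of_pos_right (h.mono hab) hk
  · refine Set.infinite_of_injOn_mapsTo (s := (Set.range e)ᶜ) (f := fun x => x * k) ?_ ?_ h.coinf
    · intro a _ b _ hab
      exact Nat.eq_of_mul_eq_mul_right hk hab
    · rintro x hx ⟨s, hs⟩
      exact hx ⟨s, Nat.eq_of_mul_eq_mul_right hk hs⟩
  · have e1 : e s * k / k = e s := Nat.mul_div_cancel _ hk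
    rcases h1 with h1 | h1
    · have h2 := h1.2
      rw [e1] at h2
      exact h.late s i _ (Or.inl h2)
    · have h2 := h1.2
      rw [e1] at h2
      exact h.late s i _ (Or.inr h2)

theorem toEquiv {A B : Str} {f : ℕ → ℕ} (h : IsIsoN A B f) :
    IsIso A B (Equiv.ofBijective f h.1) := fun i x y => h.2 i x y

theorem ofEquiv {A B : Str} {f : ℕ ≃ ℕ} (h : IsIso A B f) : IsIsoN A B f := ⟨f.bijective, h⟩

/-- **all finite dimensions** -/
theorem all_dims (n : ℕ) (hn : 2 ≤ n) : ∃ A : Str, IsComp A ∧ FinRel A ∧ NoIso A ∧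
    (∃ e, LatePts A e) ∧ compDim A = n := by
  obtain ⟨T⟩ := Pool.Agent.Helper158.FCD.torsor
  obtain ⟨A, B, hcon, hno, ⟨e, he⟩, hfin, hA, hB, ⟨f, hf⟩, hne, hdim⟩ := two_con T
  obtain ⟨k, hk, rfl⟩ : ∃ k, 0 < k ∧ n = k + 1 := ⟨n - 1, by omega, by omega⟩
  have hA' : Dim.IsComp A := hA
  have hB' : Dim.IsComp B := hB
  have hc := ty_comp hA' hB' k 0
  rw [ty_zero] at hc
  refine ⟨Un k fun _ => A, hc, finRel_un hfin k hk, noIso_un hno k hk, ⟨_, late_un he k hk⟩, ?_⟩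
  refine dim_un hk hA' hB' hcon ⟨_, toEquiv hf⟩ ?_ ?_
  · rintro ⟨g, hg, hgc⟩
    exact hne ⟨g, hgc, ofEquiv hg⟩
  · rintro C ⟨hC, g, hg⟩
    rcases hdim C hC ⟨g, ofEquiv hg⟩ with ⟨q, hq, hq2⟩ | ⟨q, hq, hq2⟩
    · exact Or.inl ⟨_, toEquiv hq2, hq⟩
    · exact Or.inr ⟨_, toEquiv hq2, hq⟩

end Pool.Agent.Y670.KC
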